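import Pool.Agent.H599Z.QT.Lamp

set_option autoImplicit false

namespace Pool.Agent.Results.MP_57dfd7_co.ALamplighterNo

open Pool.Agent.H599Z.QT

theorem result : lamplighter.Connected ∧ (∀ v, (lamplighter.neighborSet v).Finite) ∧
    QuasiTransitive lamplighter ∧ UnboundedTreewidth lamplighter ∧
    ∀ H : lamplighter.Subgraph, Planar H.coe → QuasiTransitive H.coe →
      ¬ UnboundedTreewidth H.coe :=
  ⟨lamp_conn, lamp_lf, lamp_qt, lamp_utw, lamp_sub⟩

end Pool.Agent.Results.MP_57dfd7_co.ALamplighterNo
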